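import Mathlib
import Pool.Agent.H286R2.UC.Defs
import Pool.Agent.H286R2.UC.Stubs

set_option autoImplicit false

/-! Task U13a: from the laws to `G1`, `G2`: elements of `T` and elements outside `J`. -/

namespace Pool.Agent.H286R2.UC.U13aux

open Real Finset Pool.Agent.H117R2 Pool.Agent.H117R2.UC Pool.Agent.H286R2.UC

variable {α : Type*} [DecidableEq α]

theorem hb_nonneg {x : ℝ} (h0 : 0 ≤ x) (h1 : x ≤ 1) : 0 ≤ hb x := by
  unfold hb
  have := negMulLog_nonneg h0 h1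
  have := negMulLog_nonneg (x := 1 - x) (by linarith) (by linarith)
  linarith

/-- Cauchy-Schwarz for `√(x hb x)` -/
theorem cs_sum {ι : Type*} (s : Finset ι) (x : ι → ℝ) (hx0 : ∀ i ∈ s, 0 ≤ x i)
    (hx1 : ∀ i ∈ s, x i ≤ 1) :
    (∑ i ∈ s, √(x i * hb (x i))) ^ 2 ≤ (∑ i ∈ s, x i) * ∑ i ∈ s, hb (x i) := by
  apply Finset.sum_sq_le_sum_mul_sum_of_sq_le_mul s hx0
    (fun i hi => hb_nonneg (hx0 i hi) (hx1 i hi))
  intro i hi
  rw [Real.sq_sqrt (mul_nonneg (hx0 i hi) (hb_nonneg (hx0 i hi) (hx1 i hi)))]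

theorem nu_le_sqrt {x : ℝ} (h0 : 0 ≤ x) (h1 : x ≤ 1) :
    nu x ≤ √(191 / 500) * √(x * hb x) := by
  unfold nu
  rw [← Real.sqrt_mul (by norm_num)]
  exact Real.sqrt_le_sqrt (Stub.NN_diag_le h0 h1)

theorem nu_nonneg (x : ℝ) : 0 ≤ nu x := Real.sqrt_nonneg _

theorem M0_le (F : Finset (Finset α)) (j : α) : M0 F j ≤ F.card := Finset.card_filter_le _ _

theorem Sg_hb_nonneg (F : Finset (Finset α)) (S : Finset α) (j : α) : 0 ≤ Sg hb F S j :=
  Finset.sum_nonneg fun A _ => hb_nonneg (Stub.xv_nonneg F S j A) (Stub.xv_le_one F S j A)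

theorem Sg_empty (F : Finset (Finset α)) (j : α) :
    Sg hb F ∅ j = (F.card : ℝ) * hb ((M0 F j : ℝ) / F.card) := by
  unfold Sg
  rw [Finset.sum_congr rfl (fun A _ => by rw [Stub.xv_empty]), Finset.sum_const, nsmul_eq_mul]

/-- the quantities of `G1` -/
theorem G1_data (F : Finset (Finset α)) (hne : F.Nonempty) (S : Finset α) (j : α) :
    ∃ m e R K n : ℝ, n = (F.card : ℝ) ∧ 0 < n ∧ (M0 F j : ℝ) = m * n ∧ 0 ≤ m ∧ m ≤ 1 ∧
      Sg hb F S j = e * n ∧ 0 ≤ e ∧ R = (∑ A ∈ F, √(xv F S j A * hb (xv F S j A))) / n ∧ 0 ≤ R ∧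
      R ^ 2 ≤ m * e ∧ 0 ≤ K ∧ K ^ 2 ≤ 191 / 500 * R ^ 2 ∧ K ≤ 533 / 1000 * R + 1 / 10 * e ∧
      G1 F S j = (2 * m * e - K ^ 2 - e) * n := by
  have hn : (0 : ℝ) < F.card := by exact_mod_cast hne.card_pos
  have hx0 : ∀ A ∈ F, 0 ≤ xv F S j A := fun A _ => Stub.xv_nonneg F S j A
  have hx1 : ∀ A ∈ F, xv F S j A ≤ 1 := fun A _ => Stub.xv_le_one F S j A
  refine ⟨(M0 F j : ℝ) / F.card, Sg hb F S j / F.card,
    (∑ A ∈ F, √(xv F S j A * hb (xv F S j A))) / F.card, Sg nu F S j / F.card, F.card, rfl, hn,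
    by field_simp, by positivity, ?_, by field_simp, div_nonneg (Sg_hb_nonneg F S j) hn.le, rfl,
    div_nonneg (Finset.sum_nonneg fun _ _ => Real.sqrt_nonneg _) hn.le, ?_,
    div_nonneg (Finset.sum_nonneg fun _ _ => nu_nonneg _) hn.le, ?_, ?_, ?_⟩
  · rw [div_le_one hn]
    exact_mod_cast M0_le F j
  · have h := cs_sum F (fun A => xv F S j A) hx0 hx1
    rw [Stub.sum_xv] at h
    rw [div_pow, div_mul_div_comm, ← sq]
    exact div_le_div_of_nonneg_right h (by positivity)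
  · have h : Sg nu F S j ≤ √(191 / 500) * ∑ A ∈ F, √(xv F S j A * hb (xv F S j A)) := by
      unfold Sg
      rw [Finset.mul_sum]
      exact Finset.sum_le_sum fun A hA => nu_le_sqrt (hx0 A hA) (hx1 A hA)
    have h2 : (Sg nu F S j) ^ 2 ≤ (√(191 / 500) * ∑ A ∈ F, √(xv F S j A * hb (xv F S j A))) ^ 2 :=
      pow_le_pow_left₀ (Finset.sum_nonneg fun _ _ => nu_nonneg _) h 2
    rw [mul_pow, Real.sq_sqrt (by norm_num)] at h2
    rw [div_pow, div_pow, ← mul_div_assoc]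
    exact div_le_div_of_nonneg_right h2 (by positivity)
  · have h : Sg nu F S j ≤ 533 / 1000 * ∑ A ∈ F, √(xv F S j A * hb (xv F S j A)) +
        1 / 10 * Sg hb F S j := by
      unfold Sg
      rw [Finset.mul_sum, Finset.mul_sum, ← Finset.sum_add_distrib]
      exact Finset.sum_le_sum fun A hA => Stub.nu_le (hx0 A hA) (hx1 A hA)
    rw [← mul_div_assoc, ← mul_div_assoc, ← add_div]
    exact div_le_div_of_nonneg_right h hn.le
  · unfold G1
    field_simp

/-- the quantities of `G2` -/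
theorem G2_data (F : Finset (Finset α)) (hne : F.Nonempty) {T S : Finset α} (hTS : T ⊆ S) (j : α)
    {R e n : ℝ} (hnd : n = (F.card : ℝ)) (hn : 0 < n)
    (hR : R = (∑ A ∈ F, √(xv F S j A * hb (xv F S j A))) / n) (he : Sg hb F S j = e * n) :
    ∃ W : ℝ, R ^ 2 ≤ W ∧ (809 / 500 * W - e) * n ≤ G2 F T S j := by
  classical
  have hx0 : ∀ A, 0 ≤ xv F S j A := fun A => Stub.xv_nonneg F S j A
  have hx1 : ∀ A, xv F S j A ≤ 1 := fun A => Stub.xv_le_one F S j A
  set ρ : Finset α → ℝ := fun A => avT (fun x => √(x * hb x)) F T S j A with hρ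
  have hρ0 : ∀ A, 0 ≤ ρ A := fun A =>
    div_nonneg (Finset.sum_nonneg fun _ _ => Real.sqrt_nonneg _) (Nat.cast_nonneg _)
  have hρ2 : ∀ A ∈ F, ρ A ^ 2 ≤ xv F T j A * avT hb F T S j A := by
    intro A hA
    have hc : (0 : ℝ) < (cl F T A).card := by exact_mod_cast Stub.cl_card_pos hA
    have h := cs_sum (cl F T A) (fun B => xv F S j B) (fun B _ => hx0 B) (fun B _ => hx1 B)
    rw [← Stub.avT_id hTS j hA]
    simp only [hρ]
    unfold avT
    rw [div_pow, div_mul_div_comm, ← sq]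
    exact div_le_div_of_nonneg_right h (by positivity)
  have hN : ∀ A ∈ F, (avT nu F T S j A) ^ 2 ≤ 191 / 500 * ρ A ^ 2 := by
    intro A hA
    have h0 : 0 ≤ avT nu F T S j A :=
      div_nonneg (Finset.sum_nonneg fun _ _ => nu_nonneg _) (Nat.cast_nonneg _)
    have h : avT nu F T S j A ≤ √(191 / 500) * ρ A := by
      simp only [hρ]
      unfold avT
      rw [← mul_div_assoc]
      apply div_le_div_of_nonneg_right _ (Nat.cast_nonneg _)
      rw [Finset.mul_sum]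
      exact Finset.sum_le_sum fun B _ => nu_le_sqrt (hx0 B) (hx1 B)
    have h2 := pow_le_pow_left₀ h0 h 2
    rwa [mul_pow, Real.sq_sqrt (by norm_num)] at h2
  refine ⟨(∑ A ∈ F, xv F T j A * avT hb F T S j A) / n, ?_, ?_⟩
  · have h1 : ∑ A ∈ F, √(xv F S j A * hb (xv F S j A)) = ∑ A ∈ F, ρ A := by
      simp only [hρ]
      rw [Stub.sum_avT]
      rfl
    have h2 : (∑ A ∈ F, ρ A) ^ 2 ≤ (F.card : ℝ) * ∑ A ∈ F, ρ A ^ 2 := sq_sum_le_card_mul_sum_sq
    have h3 : ∑ A ∈ F, ρ A ^ 2 ≤ ∑ A ∈ F, xv F T j A * avT hb F T S j A :=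
      Finset.sum_le_sum hρ2
    rw [← hnd] at h2
    rw [hR, h1, div_pow, div_le_div_iff₀ (by positivity) hn]
    have h4 : n * ∑ A ∈ F, ρ A ^ 2 ≤ n * ∑ A ∈ F, xv F T j A * avT hb F T S j A :=
      mul_le_mul_of_nonneg_left h3 hn.le
    calc (∑ A ∈ F, ρ A) ^ 2 * n ≤ (n * ∑ A ∈ F, xv F T j A * avT hb F T S j A) * n :=
          mul_le_mul_of_nonneg_right (h2.trans h4) hn.le
      _ = _ := by ring
  · unfold G2
    rw [he]
    have h1 : 809 / 500 * ∑ A ∈ F, xv F T j A * avT hb F T S j A ≤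
        ∑ A ∈ F, (2 * xv F T j A * avT hb F T S j A - (avT nu F T S j A) ^ 2) := by
      rw [Finset.mul_sum]
      refine Finset.sum_le_sum fun A hA => ?_
      have := hN A hA
      have := hρ2 A hA
      linarith
    have h2 : (809 / 500 * ((∑ A ∈ F, xv F T j A * avT hb F T S j A) / n) - e) * n =
        809 / 500 * ∑ A ∈ F, xv F T j A * avT hb F T S j A - e * n := by
      field_simp
    rw [h2]
    linarith

end Pool.Agent.H286R2.UC.U13aux

namespace Pool.Agent.H286R2.UC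

open Real Finset Pool.Agent.H117R2 Pool.Agent.H117R2.UC U13aux

variable {α : Type*} [DecidableEq α]

/-- elements of `T` -/
theorem G1_T (F : Finset (Finset α)) (hne : F.Nonempty) (S : Finset α) (j : α)
    (hm : 615 / 1000 * (F.card : ℝ) ≤ M0 F j) (hm2 : (M0 F j : ℝ) ≤ 62 / 100 * F.card) :
    -(max 0 (1 - 809 / 500 * ((M0 F j : ℝ) / F.card)) * (2 / 3) * F.card) ≤ G1 F S j := by
  obtain ⟨m, e, R, K, n, hnd, hn, hM, hm0, hm1, hS, he0, hR, hR0, hRe, hK0, hK2, hK1, hG⟩ :=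
    G1_data F hne S j
  rw [hG, ← hnd, hM]
  rw [← hnd, hM] at hm hm2
  have hm' : 615 / 1000 ≤ m := le_of_mul_le_mul_right hm hn
  have hm2' : m ≤ 62 / 100 := le_of_mul_le_mul_right hm2 hn
  have hmn : m * n / n = m := by field_simp
  rw [hmn]
  have he : e ≤ 2 / 3 := by
    have h1 := Stub.Sg_hb_mono F (Finset.empty_subset S) j
    rw [Sg_empty, hS, ← hnd, hM, hmn] at h1
    have h2 := Stub.hb_le_two_thirds hm' hm2'
    have h3 : e * n ≤ (2 / 3) * n := by nlinarith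
    exact le_of_mul_le_mul_right h3 hn
  have h5 : -(max 0 (1 - 809 / 500 * m) * (2 / 3)) ≤ 2 * m * e - K ^ 2 - e := by
    have h6 : (809 / 500 * m - 1) * e ≤ 2 * m * e - K ^ 2 - e := by nlinarith
    have h7 : (1 - 809 / 500 * m) * e ≤ max 0 (1 - 809 / 500 * m) * (2 / 3) := by
      calc (1 - 809 / 500 * m) * e ≤ max 0 (1 - 809 / 500 * m) * e :=
            mul_le_mul_of_nonneg_right (le_max_right _ _) he0
        _ ≤ _ := mul_le_mul_of_nonneg_left he (le_max_left _ _)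
    linarith
  have h8 := mul_le_mul_of_nonneg_right h5 hn.le
  linarith

/-- elements outside `J` -/
theorem G12_R (F : Finset (Finset α)) (hne : F.Nonempty) {T S : Finset α} (hTS : T ⊆ S) (j : α)
    (hm : 615 / 1000 * (F.card : ℝ) ≤ M0 F j)
    (he : (M0 F j : ℝ) ≤ 62 / 100 * F.card → Sg hb F S j ≤ 1 / 2 * Sg hb F ∅ j) :
    1 / 1000 * Sg hb F S j ≤ G1 F S j + 3 / 20 * G2 F T S j := by
  obtain ⟨m, e, R, K, n, hnd, hn, hM, hm0, hm1, hS, he0, hR, hR0, hRe, hK0, hK2, hK1, hG⟩ :=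
    G1_data F hne S j
  obtain ⟨W, hW, hG2⟩ := G2_data F hne hTS j hnd hn hR hS
  have hmn : m * n / n = m := by field_simp
  rw [Sg_empty, hS, ← hnd, hM, hmn] at he
  rw [← hnd, hM] at hm
  have hm' : 615 / 1000 ≤ m := le_of_mul_le_mul_right hm hn
  rw [hG, hS]
  have key : 1 / 1000 * e ≤ (2 * m - 1 - 3 / 20) * e - K ^ 2 + 2427 / 10000 * W := by
    rcases le_total m (62 / 100) with h | h
    · have h1 := he (mul_le_mul_of_nonneg_right h hn.le)
      have h2 := Stub.hb_le_two_thirds hm' h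
      have h3 : e * n ≤ (1 / 3) * n := by nlinarith
      have h4 : e ≤ 1 / 3 := le_of_mul_le_mul_right h3 hn
      exact Stub.law_off hm' h he0 h4 hR0 hRe hK0 hK1 hW
    · exact Stub.law_big h hm1 he0 hRe hK2 hW
  have h5 := mul_le_mul_of_nonneg_right key hn.le
  nlinarith

end Pool.Agent.H286R2.UC
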